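import Pool.Agent.H39.VQ.Targets

/-!
# The coherent estimate for the light cone (module C8, helper79)
-/

set_option autoImplicit false

open Finset

namespace Pool.Agent.H79.VQ

open Pool.Agent.H11.CV Pool.Agent.H39.VQ

section cntlem
variable {G : Type} [Fintype G]

theorem cnt_mono' {S T : Set G} (h : S ⊆ T) : cnt S ≤ cnt T := by
  classical
  unfold cnt
  norm_cast
  apply Finset.card_le_card
  intro g hg
  rw [Finset.mem_filter] at hg ⊢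
  exact ⟨hg.1, h hg.2⟩

theorem cnt_nonneg' (S : Set G) : 0 ≤ cnt S := by unfold cnt; positivity

theorem cnt_iUnion' {ι : Type} [Fintype ι] (S : Set G) (T : ι → Set G)
    (h : ∀ g ∈ S, ∃ i, g ∈ T i) : cnt S ≤ ∑ i, cnt (T i) := by
  classical
  unfold cnt
  rw [← Nat.cast_sum]
  norm_cast
  refine le_trans (Finset.card_le_card ?_)
    (Finset.card_biUnion_le (s := (univ : Finset ι)) (t := fun i => univ.filter (fun g => g ∈ T i)))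
  intro g hg
  obtain ⟨i, hi⟩ := h g (Finset.mem_filter.mp hg).2
  exact Finset.mem_biUnion.2 ⟨i, Finset.mem_univ _, Finset.mem_filter.2 ⟨Finset.mem_univ _, hi⟩⟩

theorem cnt_mul_le' (S : Set G) (c : ℝ) (F : G → ℝ) (hF : ∀ g, 0 ≤ F g)
    (h : ∀ g ∈ S, c ≤ F g) : cnt S * c ≤ ∑ g, F g := by
  classical
  unfold cnt
  rw [← nsmul_eq_mul, ← Finset.sum_const]
  calc ∑ _g ∈ univ.filter (fun g => g ∈ S), c ≤ ∑ g ∈ univ.filter (fun g => g ∈ S), F g := by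
        refine Finset.sum_le_sum fun g hg => h g (Finset.mem_filter.mp hg).2
    _ ≤ ∑ g, F g :=
        Finset.sum_le_sum_of_subset_of_nonneg (Finset.filter_subset _ _) fun g _ _ => hF g

theorem cnt_empty' (S : Set G) (h : ∀ g, g ∉ S) : cnt S = 0 := by
  classical
  unfold cnt
  rw [Nat.cast_eq_zero, Finset.card_eq_zero, Finset.filter_eq_empty_iff]
  intro g _
  exact h g

end cntlem

/-- one type -/
theorem typ (hTY : V_TY) (hIT : V_IT) (hLV : V_LV) (p L k : ℕ) (ε : ℤ) (G : Type)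
    [AddCommGroup G] [Fintype G] (u0 u1 u2 : G) (w : ℕ → G → ℝ) (δ : ℕ → G → ℂ) (lam : ℕ → ℝ)
    (M : ℕ) (θ Y : ℝ) (hS : Sys p L k u0 u1 u2 ε w δ) (hlam : ∀ m, 0 < lam m) (hθ : 0 < θ)
    (hθ1 : θ ≤ 1) (hM : lv k M = 0) (hY : 0 < Y) :
    cnt {g : G | Y ≤ ‖hn p k lam w δ M 0 g‖ ∧
        θ * cn p k lam w M 0 g ≤ ‖hn p k lam w δ M 0 g‖} * (Y / 2) ^ 8 ≤
      16 * ((2 ^ M / θ) ^ 4 * (64 * ((k : ℝ) + 1) ^ 2 * (p : ℝ) ^ 3)) ^ M * (p : ℝ) ^ (4 * k) *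
        ∑ ξ ∈ range (p ^ k), ∑ g, w ξ g ^ 8 := by
  classical
  have hty := hTY p L k ε G u0 u1 u2 w δ lam hS hlam
  have h0 : (0 : ℕ) < p ^ (lv k M) := Nat.pow_pos hS.prime.pos
  have hM0 := (hty.1 M 0 h0).1
  set S : Set G := {g : G | Y ≤ ‖hn p k lam w δ M 0 g‖ ∧
        θ * cn p k lam w M 0 g ≤ ‖hn p k lam w δ M 0 g‖} with hSdef
  have hw8 : ∀ ξ ∈ range (p ^ k), 0 ≤ ∑ g, w ξ g ^ 8 := fun ξ hξ =>
    Finset.sum_nonneg fun g _ => pow_nonneg (hS.nonneg ξ g (Finset.mem_range.1 hξ)) 8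
  have hrhs : 0 ≤ 16 * ((2 ^ M / θ) ^ 4 * (64 * ((k : ℝ) + 1) ^ 2 * (p : ℝ) ^ 3)) ^ M *
      (p : ℝ) ^ (4 * k) * ∑ ξ ∈ range (p ^ k), ∑ g, w ξ g ^ 8 := by
    have := Finset.sum_nonneg hw8
    positivity
  by_cases hne : ∃ g, g ∈ S
  · obtain ⟨g₀, hg₀⟩ := hne
    have hY2 : Y / 2 ≤ lam M := by
      have h1 := hg₀.1
      have h2 := (hM0 g₀).2.1
      have h3 := (hM0 g₀).2.2.1
      linarith
    have hsub : S ⊆ Oh p k lam w δ M 0 θ := by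
      intro g hg
      refine ⟨?_, hg.2⟩
      have h1 := hg.1
      have h2 := (hM0 g).2.1
      intro h3
      linarith
    have h1 : cnt S * (Y / 2) ^ 8 ≤ lam M ^ 8 * cnt (Oh p k lam w δ M 0 θ) := by
      rw [mul_comm (lam M ^ 8)]
      exact mul_le_mul (cnt_mono' hsub) (pow_le_pow_left₀ (by positivity) hY2 8)
        (by positivity) (cnt_nonneg' _)
    have h2 := hIT p L k ε G u0 u1 u2 w δ lam M θ hS hlam hθ hθ1 hM
    have h3 : lam 0 ^ 8 * ∑ ξ ∈ range (p ^ k), cnt (Oh p k lam w δ 0 ξ (θ / 2 ^ M)) ≤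
        ∑ ξ ∈ range (p ^ k), ∑ g, w ξ g ^ 8 := by
      rw [Finset.mul_sum]
      refine Finset.sum_le_sum fun ξ hξ => ?_
      rw [mul_comm]
      refine cnt_mul_le' _ _ _ (fun g => pow_nonneg (hS.nonneg ξ g (Finset.mem_range.1 hξ)) 8) ?_
      intro g hg
      have h4 := hg.1
      have h5 : lam 0 ≤ w ξ g := by
        by_contra hcon
        apply h4
        simp only [cn]
        rw [if_neg]
        exact fun h => hcon h.1
      exact pow_le_pow_left₀ (hlam 0).le h5 8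
    calc cnt S * (Y / 2) ^ 8 ≤ lam M ^ 8 * cnt (Oh p k lam w δ M 0 θ) := h1
      _ ≤ _ := h2
      _ = 16 * ((2 ^ M / θ) ^ 4 * (64 * ((k : ℝ) + 1) ^ 2 * (p : ℝ) ^ 3)) ^ M *
          (p : ℝ) ^ (4 * k) * (lam 0 ^ 8 *
            ∑ ξ ∈ range (p ^ k), cnt (Oh p k lam w δ 0 ξ (θ / 2 ^ M))) := by ring
      _ ≤ _ := mul_le_mul_of_nonneg_left h3 (by positivity)
  · push Not at hne
    rw [cnt_empty' S hne, zero_mul]
    exact hrhs

/-- extension of a type by zero -/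
def exi (M I : ℕ) (φ : Fin (M + 1) → Fin I) (r : ℕ) : ℕ :=
  if h : r < M + 1 then (φ ⟨r, h⟩ : ℕ) else 0

theorem exi_eq (M I : ℕ) (i : ℕ → ℕ) (h1 : ∀ r, i r < I) (h2 : ∀ r, M < r → i r = 0) :
    exi M I (fun r => ⟨i r, h1 r⟩) = i := by
  funext r
  unfold exi
  split_ifs with h
  · rfl
  · exact (h2 r (by omega)).symm

theorem c8 (hTI : V_TI) (hTY : V_TY) (hIT : V_IT) (hCE : V_CE) (hLV : V_LV) : V_C8 := by
  intro p A
  by_cases hp1 : 1 < p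
  swap
  · refine ⟨0, le_rfl, ?_⟩
    intro L n k ε G _ _ u0 u1 u2 w δ θ Y hS
    exact absurd hS.prime.one_lt hp1
  obtain ⟨C, hC0, hC⟩ := hCE p A (p * (2 + A) + 3) hp1
  refine ⟨C, hC0, ?_⟩
  intro L n k ε G _ _ u0 u1 u2 w δ θ Y hS hkn hY hθn hθ1 hw
  classical
  have hp0 : 0 < (p : ℝ) := by exact_mod_cast hS.prime.pos
  have hθ : 0 < θ := lt_of_lt_of_le (by positivity) hθn
  set I : ℕ := p * (2 * k + A * (n + 1)) + 3 with hI
  set M : ℕ := 2 * Nat.log 2 (k + 1) + 4 with hM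
  have hI1 : 1 ≤ I := by omega
  have hIR : (1 : ℝ) ≤ (I : ℝ) := by exact_mod_cast hI1
  have hlvM : lv k M = 0 := (hLV k).2.2.2.2.2 M le_rfl
  set Λ : ℝ := Y / (4 * (p : ℝ) ^ k) with hΛ
  have hΛ0 : 0 < Λ := by positivity
  set θ' : ℝ := θ / 2 ^ (M + 2) with hθ'
  set Y' : ℝ := Y / (2 * (2 * (I : ℝ)) ^ (M + 1)) with hY'
  have hY'0 : 0 < Y' := by positivity
  have hθ'0 : 0 < θ' := by positivity
  have hθ'1 : θ' ≤ 1 := by
    rw [hθ', div_le_one (by positivity)]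
    exact hθ1.trans (one_le_pow₀ (by norm_num))
  set K : ℝ := 16 * ((2 ^ M / θ') ^ 4 * (64 * ((k : ℝ) + 1) ^ 2 * (p : ℝ) ^ 3)) ^ M with hK
  set W : ℝ := ∑ ξ ∈ range (p ^ k), ∑ g, w ξ g ^ 8 with hW
  have hW0 : 0 ≤ W := Finset.sum_nonneg fun ξ hξ =>
    Finset.sum_nonneg fun g _ => pow_nonneg (hS.nonneg ξ g (Finset.mem_range.1 hξ)) 8
  -- the set of one type
  set T : (Fin (M + 1) → Fin I) → Set G := fun φ =>
    {g : G | Y' ≤ ‖hn p k (fun r => 2 ^ (exi M I φ r) * Λ) w δ M 0 g‖ ∧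
      θ' * cn p k (fun r => 2 ^ (exi M I φ r) * Λ) w M 0 g ≤
        ‖hn p k (fun r => 2 ^ (exi M I φ r) * Λ) w δ M 0 g‖} with hT
  have hone : ∀ φ, cnt (T φ) * (Y' / 2) ^ 8 ≤ K * (p : ℝ) ^ (4 * k) * W := fun φ =>
    typ hTY hIT hLV p L k ε G u0 u1 u2 w δ (fun r => 2 ^ (exi M I φ r) * Λ) M θ' Y' hS
      (fun m => by positivity) hθ'0 hθ'1 hlvM hY'0
  have hsum_lt : ∀ g, ∑ ξ ∈ range (p ^ k), w ξ g < 2 ^ I * Λ := by
    intro g
    have h1 : ∑ ξ ∈ range (p ^ k), w ξ g ≤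
        ∑ _ξ ∈ range (p ^ k), (p : ℝ) ^ (A * (n + 1)) * Y :=
      Finset.sum_le_sum fun ξ hξ => hw ξ (Finset.mem_range.1 hξ) g
    have h2 : ∑ _ξ ∈ range (p ^ k), (p : ℝ) ^ (A * (n + 1)) * Y =
        (p : ℝ) ^ k * ((p : ℝ) ^ (A * (n + 1)) * Y) := by
      rw [Finset.sum_const, Finset.card_range, nsmul_eq_mul]; push_cast; ring
    have h3 : (p : ℝ) ^ (2 * k + A * (n + 1)) ≤ 2 ^ (p * (2 * k + A * (n + 1))) := by
      have h4 : (p : ℝ) ≤ 2 ^ p := by exact_mod_cast (Nat.lt_two_pow_self).le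
      calc (p : ℝ) ^ (2 * k + A * (n + 1)) ≤ ((2 : ℝ) ^ p) ^ (2 * k + A * (n + 1)) :=
            pow_le_pow_left₀ hp0.le h4 _
        _ = _ := by rw [← pow_mul]
    have h5 : (2 : ℝ) ^ I = 8 * 2 ^ (p * (2 * k + A * (n + 1))) := by
      rw [hI, pow_add]; ring
    have h6 : (p : ℝ) ^ k * ((p : ℝ) ^ (A * (n + 1)) * Y) =
        (p : ℝ) ^ (2 * k + A * (n + 1)) * Y / (p : ℝ) ^ k := by
      rw [pow_add, two_mul, pow_add]
      field_simp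
    rw [h2, h6] at h1
    refine lt_of_le_of_lt h1 ?_
    rw [hΛ, h5, ← mul_div_assoc, div_lt_div_iff₀ (by positivity) (by positivity)]
    have h7 : (p : ℝ) ^ (2 * k + A * (n + 1)) * Y * (4 * (p : ℝ) ^ k) ≤
        2 ^ (p * (2 * k + A * (n + 1))) * Y * (4 * (p : ℝ) ^ k) := by gcongr
    refine lt_of_le_of_lt h7 ?_
    have h8 : (0 : ℝ) < 2 ^ (p * (2 * k + A * (n + 1))) * Y * (p : ℝ) ^ k := by positivity
    nlinarith
  have hcov : ∀ g ∈ {g : G | Y ≤ ‖∑ ξ ∈ range (p ^ k), δ ξ g‖ ∧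
      θ * ∑ ξ ∈ range (p ^ k), w ξ g ≤ ‖∑ ξ ∈ range (p ^ k), δ ξ g‖}, ∃ φ, g ∈ T φ := by
    intro g hg
    obtain ⟨i, hi1, hi2, hi3, hi4⟩ := hTI p k I G w δ g Λ θ Y hp1 hI1 hΛ0 hY hθ.le
      (fun ξ hξ => ⟨hS.nonneg ξ g hξ, hS.le ξ g hξ⟩)
      (by rw [hΛ]; apply le_of_eq; field_simp) (hsum_lt g) hg.1 hg.2 M
    rw [hlvM] at hi3 hi4
    simp only [pow_zero, Finset.range_one, Finset.sum_singleton] at hi3 hi4
    refine ⟨fun r => ⟨i r, hi1 r⟩, ?_⟩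
    rw [hT]
    simp only [Set.mem_setOf_eq]
    rw [exi_eq M I i hi1 hi2]
    exact ⟨hi3, hi4⟩
  have hc1 := cnt_iUnion' _ T hcov
  have hYe : Y ^ 8 = (Y' / 2) ^ 8 * (4 * (2 * (I : ℝ)) ^ (M + 1)) ^ 8 := by
    rw [← mul_pow]
    congr 1
    rw [hY']
    field_simp
    norm_num
  have hCE' := hC n k M I θ hkn le_rfl ?_ hθn
  swap
  · rw [hI]
    have h1 : p * (2 * k + A * (n + 1)) ≤ p * ((2 + A) * (n + 1)) :=
      Nat.mul_le_mul_left _ (by nlinarith)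
    nlinarith
  calc cnt {g : G | Y ≤ ‖∑ ξ ∈ range (p ^ k), δ ξ g‖ ∧
          θ * ∑ ξ ∈ range (p ^ k), w ξ g ≤ ‖∑ ξ ∈ range (p ^ k), δ ξ g‖} * Y ^ 8
      ≤ (∑ φ, cnt (T φ)) * Y ^ 8 := mul_le_mul_of_nonneg_right hc1 (by positivity)
    _ = (4 * (2 * (I : ℝ)) ^ (M + 1)) ^ 8 * ∑ φ, cnt (T φ) * (Y' / 2) ^ 8 := by
        rw [hYe, ← Finset.sum_mul]; ring
    _ ≤ (4 * (2 * (I : ℝ)) ^ (M + 1)) ^ 8 * ∑ _φ : Fin (M + 1) → Fin I,
          K * (p : ℝ) ^ (4 * k) * W :=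
        mul_le_mul_of_nonneg_left (Finset.sum_le_sum fun φ _ => hone φ) (by positivity)
    _ = ((I : ℝ) ^ (M + 1) * (4 * (2 * (I : ℝ)) ^ (M + 1)) ^ 8 * K) *
          ((p : ℝ) ^ (4 * k) * W) := by
        rw [Finset.sum_const, Finset.card_univ, Fintype.card_fun, Fintype.card_fin,
          Fintype.card_fin, nsmul_eq_mul]
        push_cast
        ring
    _ ≤ Real.exp (C * Real.log ((n : ℝ) + 2) ^ 2) * ((p : ℝ) ^ (4 * k) * W) :=
        mul_le_mul_of_nonneg_right hCE' (by positivity)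
    _ = _ := by ring

end Pool.Agent.H79.VQ
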