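import Pool.Agent.H39.VQ.Targets

/-!
# The `L^2` norm of the square function and local masses (module WE, helper79)
-/

set_option autoImplicit false

open Finset

namespace Pool.Agent.H79.VQ

open Pool.Agent.H11.CV Pool.Agent.H39.VQ

/-- the centre of the class of `z` -/
def cc (p a c₀ z : ℕ) : ℕ := c₀ + p ^ a * z

theorem cc_lt (p a j c₀ z : ℕ) (haj : a ≤ j) (hc : c₀ < p ^ a) (hz : z < p ^ (j - a)) :
    cc p a c₀ z < p ^ j := by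
  have h : p ^ j = p ^ a * p ^ (j - a) := by rw [← pow_add]; congr 1; omega
  unfold cc
  rw [h]
  have h2 : z + 1 ≤ p ^ (j - a) := hz
  calc c₀ + p ^ a * z < p ^ a + p ^ a * z := by omega
    _ = p ^ a * (z + 1) := by ring
    _ ≤ p ^ a * p ^ (j - a) := Nat.mul_le_mul_left _ h2

theorem cc_sub (p a c₀ z z' : ℕ) :
    ((cc p a c₀ z : ℕ) : ℤ) - ((cc p a c₀ z' : ℕ) : ℤ) = (p : ℤ) ^ a * ((z : ℤ) - (z' : ℤ)) := by
  unfold cc; push_cast; ring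

theorem cc_dvd (p a l c₀ z z' : ℕ) (hp : p ≠ 0) (hal : a ≤ l) :
    (p : ℤ) ^ l ∣ ((cc p a c₀ z : ℕ) : ℤ) - ((cc p a c₀ z' : ℕ) : ℤ) ↔
      z % p ^ (l - a) = z' % p ^ (l - a) := by
  rw [cc_sub]
  have h : (p : ℤ) ^ l = (p : ℤ) ^ a * (p : ℤ) ^ (l - a) := by rw [← pow_add]; congr 1; omega
  rw [h]
  have hp0 : (p : ℤ) ^ a ≠ 0 := pow_ne_zero _ (by exact_mod_cast hp)
  rw [mul_dvd_mul_iff_left hp0]
  constructor
  · intro hd
    have h1 : ((p ^ (l - a) : ℕ) : ℤ) ∣ ((z : ℕ) : ℤ) - ((z' : ℕ) : ℤ) := by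
      push_cast; exact hd
    have h2 := (Nat.modEq_iff_dvd).2 h1
    exact h2.symm
  · intro hd
    have h2 : z' ≡ z [MOD p ^ (l - a)] := hd.symm
    have h1 := (Nat.modEq_iff_dvd).1 h2
    push_cast at h1
    exact h1

/-- least level in `[a, j]` of a full class -/
noncomputable def lm (p a j c₀ : ℕ) (x y z : ℤ) (s : ℕ) : ℕ :=
  sInf {l | a ≤ l ∧ l ≤ j ∧ Us p j l (cc p a c₀ s : ℤ) x y z}

theorem lm_mem (p a j c₀ : ℕ) (x y z : ℤ) (s : ℕ) (haj : a ≤ j)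
    (h : Us p j j (cc p a c₀ s : ℤ) x y z) :
    a ≤ lm p a j c₀ x y z s ∧ lm p a j c₀ x y z s ≤ j ∧
      Us p j (lm p a j c₀ x y z s) (cc p a c₀ s : ℤ) x y z := by
  have hne : ({l | a ≤ l ∧ l ≤ j ∧ Us p j l (cc p a c₀ s : ℤ) x y z} : Set ℕ).Nonempty :=
    ⟨j, haj, le_rfl, h⟩
  exact Nat.sInf_mem hne

theorem lm_le (p a j c₀ : ℕ) (x y z : ℤ) (s l : ℕ) (h1 : a ≤ l) (h2 : l ≤ j)
    (h : Us p j l (cc p a c₀ s : ℤ) x y z) : lm p a j c₀ x y z s ≤ l :=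
  Nat.sInf_le ⟨h1, h2, h⟩

/-- the node of an element -/
noncomputable def nu (p a j c₀ : ℕ) (x y z : ℤ) (s : ℕ) : Σ _ : ℕ, ℕ :=
  ⟨lm p a j c₀ x y z s, s % p ^ (lm p a j c₀ x y z s - a)⟩

theorem pair (hN6 : V_N6) (p a j c₀ : ℕ) (x y z : ℤ) (hp : p ≠ 0) (haj : a ≤ j) (s s' ρ : ℕ)
    (hs : Us p j j (cc p a c₀ s : ℤ) x y z) (hs' : Us p j j (cc p a c₀ s' : ℤ) x y z)
    (hρ : ρ ≤ j) (hd : (p : ℤ) ^ ρ ∣ ((cc p a c₀ s : ℕ) : ℤ) - ((cc p a c₀ s' : ℕ) : ℤ))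
    (hu : Us p j ρ (cc p a c₀ s : ℤ) x y z) :
    nu p a j c₀ x y z s = nu p a j c₀ x y z s' := by
  obtain ⟨ρ', h1, h2, h3, h4, h5⟩ : ∃ ρ', ρ ≤ ρ' ∧ a ≤ ρ' ∧ ρ' ≤ j ∧
      (p : ℤ) ^ ρ' ∣ ((cc p a c₀ s : ℕ) : ℤ) - ((cc p a c₀ s' : ℕ) : ℤ) ∧
      Us p j ρ' (cc p a c₀ s : ℤ) x y z := by
    rcases le_total a ρ with h | h
    · exact ⟨ρ, le_rfl, h, hρ, hd, hu⟩
    · refine ⟨a, h, le_rfl, haj, ?_, ?_⟩
      · rw [cc_sub]; exact dvd_mul_right _ _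
      · exact hN6 p j ρ a _ _ x y z h haj (by simp) hu
  have hd' : ∀ l, l ≤ ρ' → (p : ℤ) ^ l ∣ ((cc p a c₀ s : ℕ) : ℤ) - ((cc p a c₀ s' : ℕ) : ℤ) :=
    fun l hl => (pow_dvd_pow _ hl).trans h4
  have hd'' : ∀ l, l ≤ ρ' → (p : ℤ) ^ l ∣ ((cc p a c₀ s' : ℕ) : ℤ) - ((cc p a c₀ s : ℕ) : ℤ) :=
    fun l hl => by
      have := hd' l hl
      rw [← dvd_neg] at this
      simpa using this
  have hu' : Us p j ρ' (cc p a c₀ s' : ℤ) x y z :=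
    hN6 p j ρ' ρ' _ _ x y z le_rfl h3 (hd'' ρ' le_rfl) h5
  have e1 := lm_le p a j c₀ x y z s ρ' h2 h3 h5
  have e2 := lm_le p a j c₀ x y z s' ρ' h2 h3 hu'
  obtain ⟨m1, m2, m3⟩ := lm_mem p a j c₀ x y z s haj hs
  obtain ⟨n1, n2, n3⟩ := lm_mem p a j c₀ x y z s' haj hs'
  have e3 : lm p a j c₀ x y z s' ≤ lm p a j c₀ x y z s :=
    lm_le p a j c₀ x y z s' _ m1 m2 (hN6 p j _ _ _ _ x y z le_rfl m2 (hd'' _ e1) m3)
  have e4 : lm p a j c₀ x y z s ≤ lm p a j c₀ x y z s' :=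
    lm_le p a j c₀ x y z s _ n1 n2 (hN6 p j _ _ _ _ x y z le_rfl n2 (hd' _ e2) n3)
  have e5 : lm p a j c₀ x y z s' = lm p a j c₀ x y z s := le_antisymm e3 e4
  have e6 : s % p ^ (lm p a j c₀ x y z s - a) = s' % p ^ (lm p a j c₀ x y z s - a) :=
    (cc_dvd p a _ c₀ s s' hp m1).1 (hd' _ e1)
  unfold nu
  rw [e5, e6]

theorem card_le (hN2 : V_N2) (hN5 : V_N5) (hN6 : V_N6) (p a j c₀ : ℕ) (x y z : ℤ)
    (hp : p.Prime) (hp2 : p ≠ 2) (haj : a ≤ j) (T : Finset ℕ)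
    (hT : ∀ s ∈ T, s < p ^ (j - a) ∧ Us p j j (cc p a c₀ s : ℤ) x y z) :
    (T.image (nu p a j c₀ x y z)).card ≤ 2 := by
  classical
  by_contra hcon
  push Not at hcon
  obtain ⟨n1, h1, n2, h2, n3, h3, h12, h13, h23⟩ := Finset.two_lt_card.1 hcon
  obtain ⟨s1, hs1, rfl⟩ := Finset.mem_image.1 h1
  obtain ⟨s2, hs2, rfl⟩ := Finset.mem_image.1 h2
  obtain ⟨s3, hs3, rfl⟩ := Finset.mem_image.1 h3
  have hp0 : p ≠ 0 := hp.ne_zero
  have key : ∀ s ∈ T, ∀ s' ∈ T, nu p a j c₀ x y z s ≠ nu p a j c₀ x y z s' →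
      ¬ (p : ℤ) ^ j ∣ ((cc p a c₀ s : ℕ) : ℤ) - ((cc p a c₀ s' : ℕ) : ℤ) := by
    intro s hs s' hs' hne hd
    rw [cc_dvd p a j c₀ s s' hp0 haj, Nat.mod_eq_of_lt (hT s hs).1,
      Nat.mod_eq_of_lt (hT s' hs').1] at hd
    exact hne (by rw [hd])
  have pl : ∀ s ∈ T, Pl p j 0 (cc p a c₀ s : ℤ) x y z := fun s hs =>
    (hN2.2.2.2.2 p j _ x y z).2 (hT s hs).2
  obtain ⟨ρ, hρ, hor⟩ := hN5 p j _ _ _ x y z hp hp2 (pl s1 hs1) (pl s2 hs2) (pl s3 hs3)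
    (key s1 hs1 s2 hs2 h12) (key s1 hs1 s3 hs3 h13) (key s2 hs2 s3 hs3 h23)
  rcases hor with ⟨ha, hb⟩ | ⟨ha, hb⟩ | ⟨ha, hb⟩
  · exact h12 (pair hN6 p a j c₀ x y z hp0 haj s1 s2 ρ (hT s1 hs1).2 (hT s2 hs2).2 hρ.le ha hb)
  · exact h13 (pair hN6 p a j c₀ x y z hp0 haj s1 s3 ρ (hT s1 hs1).2 (hT s3 hs3).2 hρ.le ha hb)
  · exact h23 (pair hN6 p a j c₀ x y z hp0 haj s2 s3 ρ (hT s2 hs2).2 (hT s3 hs3).2 hρ.le ha hb)

/-- the fibre of a node is a full class -/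
theorem fibre (hN6 : V_N6) (p a j c₀ : ℕ) (x y z : ℤ) (hp : p ≠ 0) (haj : a ≤ j)
    (T : Finset ℕ) [DecidablePred fun s => nu p a j c₀ x y z s = nu p a j c₀ x y z s]
    (hT : ∀ s, s ∈ T ↔ s < p ^ (j - a) ∧ Us p j j (cc p a c₀ s : ℤ) x y z)
    (s₁ : ℕ) (hs₁ : s₁ ∈ T) (H : ℕ → ℂ) :
    ∑ s ∈ T with nu p a j c₀ x y z s = nu p a j c₀ x y z s₁, H (cc p a c₀ s) =
      ∑ w ∈ range (p ^ (j - lm p a j c₀ x y z s₁)),
        H (c₀ + p ^ a * (s₁ % p ^ (lm p a j c₀ x y z s₁ - a)) +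
          p ^ (lm p a j c₀ x y z s₁) * w) := by
  classical
  obtain ⟨m1, m2, m3⟩ := lm_mem p a j c₀ x y z s₁ haj ((hT s₁).1 hs₁).2
  set l := lm p a j c₀ x y z s₁ with hl
  have hpos : 0 < p ^ (l - a) := Nat.pow_pos (Nat.pos_of_ne_zero hp)
  have hpp : p ^ (j - a) = p ^ (l - a) * p ^ (j - l) := by rw [← pow_add]; congr 1; omega
  have hpl : p ^ l = p ^ a * p ^ (l - a) := by rw [← pow_add]; congr 1; omega
  have hnode : ∀ s ∈ T, nu p a j c₀ x y z s = nu p a j c₀ x y z s₁ →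
      s % p ^ (l - a) = s₁ % p ^ (l - a) := by
    intro s hs he
    have h1 : lm p a j c₀ x y z s = lm p a j c₀ x y z s₁ := congrArg Sigma.fst he
    have h2 : s % p ^ (lm p a j c₀ x y z s - a) =
        s₁ % p ^ (lm p a j c₀ x y z s₁ - a) := by
      unfold nu at he
      simp only [Sigma.mk.injEq, heq_eq_eq] at he
      exact he.2
    rw [h1] at h2
    exact h2
  refine Finset.sum_nbij' (fun s => s / p ^ (l - a))
    (fun w => s₁ % p ^ (l - a) + p ^ (l - a) * w) ?_ ?_ ?_ ?_ ?_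
  · intro s hs
    rw [Finset.mem_filter] at hs
    rw [Finset.mem_range]
    have h1 := ((hT s).1 hs.1).1
    rw [hpp] at h1
    exact Nat.div_lt_of_lt_mul h1
  · intro w hw
    rw [Finset.mem_range] at hw
    rw [Finset.mem_filter]
    have hlt : s₁ % p ^ (l - a) + p ^ (l - a) * w < p ^ (j - a) := by
      rw [hpp]
      have := Nat.mod_lt s₁ hpos
      calc s₁ % p ^ (l - a) + p ^ (l - a) * w < p ^ (l - a) + p ^ (l - a) * w := by omega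
        _ = p ^ (l - a) * (w + 1) := by ring
        _ ≤ _ := Nat.mul_le_mul_left _ hw
    have hmod : (s₁ % p ^ (l - a) + p ^ (l - a) * w) % p ^ (l - a) = s₁ % p ^ (l - a) := by
      simp
    have hd : (p : ℤ) ^ l ∣ ((cc p a c₀ (s₁ % p ^ (l - a) + p ^ (l - a) * w) : ℕ) : ℤ) -
        ((cc p a c₀ s₁ : ℕ) : ℤ) := (cc_dvd p a l c₀ _ s₁ hp m1).2 hmod
    have hu : Us p j l (cc p a c₀ (s₁ % p ^ (l - a) + p ^ (l - a) * w) : ℤ) x y z :=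
      hN6 p j l l _ _ x y z le_rfl m2 hd m3
    have hu' : Us p j j (cc p a c₀ (s₁ % p ^ (l - a) + p ^ (l - a) * w) : ℤ) x y z :=
      hN6 p j l j _ _ x y z m2 le_rfl (by simp) hu
    exact ⟨(hT _).2 ⟨hlt, hu'⟩, pair hN6 p a j c₀ x y z hp haj _ s₁ l hu'
      ((hT s₁).1 hs₁).2 m2 hd hu⟩
  · intro s hs
    rw [Finset.mem_filter] at hs
    have h1 := hnode s hs.1 hs.2
    change s₁ % p ^ (l - a) + p ^ (l - a) * (s / p ^ (l - a)) = s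
    rw [← h1]
    exact Nat.mod_add_div s _
  · intro w hw
    rw [Nat.add_mul_div_left _ _ hpos, Nat.mod_div_self, zero_add]
  · intro s hs
    rw [Finset.mem_filter] at hs
    have h1 := hnode s hs.1 hs.2
    congr 1
    unfold cc
    rw [← h1, hpl]
    have h2 := Nat.mod_add_div s (p ^ (l - a))
    calc c₀ + p ^ a * s = c₀ + p ^ a * (s % p ^ (l - a) + p ^ (l - a) * (s / p ^ (l - a))) := by
          rw [h2]
      _ = _ := by ring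

/-- the estimate for one character -/
theorem one (hFT : V_FT) (hFP : V_FP) (hN2 : V_N2) (hN5 : V_N5) (hN6 : V_N6) (hAF : V_AF)
    (p L j a c₀ : ℕ) (ε : ℤ) (G : Type) [AddCommGroup G] [Fintype G] (u0 u1 u2 : G)
    (f : ℕ → G → ℂ) (hp : p.Prime) (hp2 : p ≠ 2) (hL : 1 ≤ L) (hjL : 2 * j ≤ L) (haj : a ≤ j)
    (hc : c₀ < p ^ a) (hf : ∀ s : ℕ, s < p ^ j → Kc p L j u0 u1 u2 ε (s : ℤ) (f s))
    (χ : AddChar G ℂ) :
    ‖∑ s ∈ range (p ^ (j - a)),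
      ft (fun g => f (c₀ + p ^ a * s) g * (starRingEnd ℂ) (f (c₀ + p ^ a * s) g)) χ‖ ^ 2 ≤
      2 * ∑ l ∈ Icc a j, ∑ y ∈ range (p ^ (l - a)),
        ‖ft (AA p L j l u0 u1 u2 ((c₀ + p ^ a * y : ℕ) : ℤ)
          (fun g => ∑ z ∈ range (p ^ (j - l)), f (c₀ + p ^ a * y + p ^ l * z) g *
            (starRingEnd ℂ) (f (c₀ + p ^ a * y + p ^ l * z) g))) χ‖ ^ 2 := by
  classical
  have hp0 : p ≠ 0 := hp.ne_zero
  set H : ℕ → ℂ := fun s => ft (fun g => f s g * (starRingEnd ℂ) (f s g)) χ with hH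
  have hnonneg : 0 ≤ 2 * ∑ l ∈ Icc a j, ∑ y ∈ range (p ^ (l - a)),
        ‖ft (AA p L j l u0 u1 u2 ((c₀ + p ^ a * y : ℕ) : ℤ)
          (fun g => ∑ z ∈ range (p ^ (j - l)), f (c₀ + p ^ a * y + p ^ l * z) g *
            (starRingEnd ℂ) (f (c₀ + p ^ a * y + p ^ l * z) g))) χ‖ ^ 2 := by positivity
  by_cases hall : ∀ s ∈ range (p ^ (j - a)), H (c₀ + p ^ a * s) = 0
  · have : ∑ s ∈ range (p ^ (j - a)), H (c₀ + p ^ a * s) = 0 := Finset.sum_eq_zero hall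
    change ‖∑ s ∈ range (p ^ (j - a)), H (c₀ + p ^ a * s)‖ ^ 2 ≤ _
    rw [this]
    simpa using hnonneg
  · push Not at hall
    obtain ⟨s₀, hs₀, hne₀⟩ := hall
    rw [Finset.mem_range] at hs₀
    have hFPs : ∀ s : ℕ, s < p ^ (j - a) → H (cc p a c₀ s) ≠ 0 →
        (∃ x y z : ℤ, Fr p L u0 u1 u2 χ x y z) ∧
        ∀ x y z : ℤ, Fr p L u0 u1 u2 χ x y z → Us p j j (cc p a c₀ s : ℤ) x y z := by
      intro s hs hne
      have hk := hf (cc p a c₀ s) (cc_lt p a j c₀ s haj hc hs)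
      obtain ⟨h1, h2⟩ := hFP p L j j ε ε (cc p a c₀ s : ℤ) (cc p a c₀ s : ℤ) G u0 u1 u2
        (f (cc p a c₀ s)) (f (cc p a c₀ s)) hp.one_lt hL hjL hjL hk hk χ hne
      refine ⟨h1, fun x y z hF => ?_⟩
      obtain ⟨x', y', z', h3, h4⟩ := h2 x y z hF
      exact (hN2.2.2.2.2 p j _ x y z).1 (hN2.1 p j ε _ x y z x' y' z' h3 h4)
    obtain ⟨⟨x, y, z, hFr⟩, -⟩ := hFPs s₀ hs₀ hne₀
    set T : Finset ℕ := (range (p ^ (j - a))).filter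
      (fun s => Us p j j (cc p a c₀ s : ℤ) x y z) with hTdef
    have hT : ∀ s, s ∈ T ↔ s < p ^ (j - a) ∧ Us p j j (cc p a c₀ s : ℤ) x y z := by
      intro s; rw [hTdef, Finset.mem_filter, Finset.mem_range]
    have hsum1 : ∑ s ∈ range (p ^ (j - a)), H (c₀ + p ^ a * s) = ∑ s ∈ T, H (cc p a c₀ s) := by
      rw [hTdef, Finset.sum_filter_of_ne]
      · rfl
      · intro s hs hne
        exact (hFPs s (Finset.mem_range.1 hs) hne).2 x y z hFr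
    have hsum2 : ∑ s ∈ T, H (cc p a c₀ s) = ∑ ν ∈ T.image (nu p a j c₀ x y z),
        ∑ s ∈ T with nu p a j c₀ x y z s = ν, H (cc p a c₀ s) :=
      (Finset.sum_fiberwise_of_maps_to (fun s hs => Finset.mem_image_of_mem _ hs) _).symm
    have hcard := card_le hN2 hN5 hN6 p a j c₀ x y z hp hp2 haj T (fun s hs => (hT s).1 hs)
    -- the value of a fibre
    have hfib : ∀ ν ∈ T.image (nu p a j c₀ x y z),
        ‖∑ s ∈ T with nu p a j c₀ x y z s = ν, H (cc p a c₀ s)‖ ^ 2 =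
          ‖ft (AA p L j ν.1 u0 u1 u2 ((c₀ + p ^ a * ν.2 : ℕ) : ℤ)
          (fun g => ∑ z ∈ range (p ^ (j - ν.1)), f (c₀ + p ^ a * ν.2 + p ^ ν.1 * z) g *
            (starRingEnd ℂ) (f (c₀ + p ^ a * ν.2 + p ^ ν.1 * z) g))) χ‖ ^ 2 := by
      intro ν hν
      obtain ⟨s₁, hs₁, rfl⟩ := Finset.mem_image.1 hν
      obtain ⟨m1, m2, m3⟩ := lm_mem p a j c₀ x y z s₁ haj ((hT s₁).1 hs₁).2
      have h1 := fibre hN6 p a j c₀ x y z hp0 haj T hT s₁ hs₁ H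
      have hu : Us p j (lm p a j c₀ x y z s₁)
          ((c₀ + p ^ a * (s₁ % p ^ (lm p a j c₀ x y z s₁ - a)) : ℕ) : ℤ) x y z := by
        refine hN6 p j _ _ _ _ x y z le_rfl m2 ?_ m3
        have := (cc_dvd p a (lm p a j c₀ x y z s₁) c₀
          (s₁ % p ^ (lm p a j c₀ x y z s₁ - a)) s₁ hp0 m1).2 (by simp)
        exact this
      have h2 := (hAF p L j (lm p a j c₀ x y z s₁) _ x y z G u0 u1 u2
        (fun g => ∑ z' ∈ range (p ^ (j - lm p a j c₀ x y z s₁)),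
          f (c₀ + p ^ a * (s₁ % p ^ (lm p a j c₀ x y z s₁ - a)) +
            p ^ (lm p a j c₀ x y z s₁) * z') g *
          (starRingEnd ℂ) (f (c₀ + p ^ a * (s₁ % p ^ (lm p a j c₀ x y z s₁ - a)) +
            p ^ (lm p a j c₀ x y z s₁) * z') g)) χ hp.one_lt hL hjL m2 hFr).1 hu
      have h3 := hFT G
      have h4 := h3.2.2.2.2.1 ℕ (range (p ^ (j - lm p a j c₀ x y z s₁)))
        (fun z' g => f (c₀ + p ^ a * (s₁ % p ^ (lm p a j c₀ x y z s₁ - a)) +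
            p ^ (lm p a j c₀ x y z s₁) * z') g *
          (starRingEnd ℂ) (f (c₀ + p ^ a * (s₁ % p ^ (lm p a j c₀ x y z s₁ - a)) +
            p ^ (lm p a j c₀ x y z s₁) * z') g)) χ
      rw [h1]
      exact congrArg (fun t : ℂ => ‖t‖ ^ 2) (h2.trans h4).symm
    change ‖∑ s ∈ range (p ^ (j - a)), H (c₀ + p ^ a * s)‖ ^ 2 ≤ _
    rw [hsum1, hsum2]
    set I := T.image (nu p a j c₀ x y z) with hI
    have hcs : ‖∑ ν ∈ I, ∑ s ∈ T with nu p a j c₀ x y z s = ν, H (cc p a c₀ s)‖ ^ 2 ≤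
        2 * ∑ ν ∈ I, ‖∑ s ∈ T with nu p a j c₀ x y z s = ν, H (cc p a c₀ s)‖ ^ 2 := by
      calc ‖∑ ν ∈ I, ∑ s ∈ T with nu p a j c₀ x y z s = ν, H (cc p a c₀ s)‖ ^ 2
          ≤ (∑ ν ∈ I, ‖∑ s ∈ T with nu p a j c₀ x y z s = ν, H (cc p a c₀ s)‖) ^ 2 :=
            pow_le_pow_left₀ (norm_nonneg _) (norm_sum_le _ _) 2
        _ ≤ (I.card : ℝ) *
            ∑ ν ∈ I, ‖∑ s ∈ T with nu p a j c₀ x y z s = ν, H (cc p a c₀ s)‖ ^ 2 :=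
            sq_sum_le_card_mul_sum_sq
        _ ≤ _ := by
            refine mul_le_mul_of_nonneg_right ?_ (Finset.sum_nonneg fun _ _ => by positivity)
            exact_mod_cast hcard
    refine hcs.trans ?_
    refine mul_le_mul_of_nonneg_left ?_ (by norm_num)
    rw [Finset.sum_congr rfl hfib]
    rw [Finset.sum_sigma']
    refine Finset.sum_le_sum_of_subset_of_nonneg ?_ (fun _ _ _ => by positivity)
    intro ν hν
    obtain ⟨s₁, hs₁, rfl⟩ := Finset.mem_image.1 hν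
    obtain ⟨m1, m2, m3⟩ := lm_mem p a j c₀ x y z s₁ haj ((hT s₁).1 hs₁).2
    rw [Finset.mem_sigma]
    refine ⟨Finset.mem_Icc.2 ⟨m1, m2⟩, Finset.mem_range.2 ?_⟩
    exact Nat.mod_lt _ (Nat.pow_pos hp.pos)

theorem we (hFT : V_FT) (hFP : V_FP) (hN2 : V_N2) (hN5 : V_N5) (hN6 : V_N6) (hAV : V_AV)
    (hAF : V_AF) : V_WE := by
  intro p L j a c₀ ε G _ _ u0 u1 u2 f hp hp2 hL hjL haj hc hf
  have hP := (hFT G).2.1
  have hS := (hFT G).2.2.2.2.1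
  have hcast : ∀ s g, ((‖f s g‖ ^ 2 : ℝ) : ℂ) = f s g * (starRingEnd ℂ) (f s g) := by
    intro s g
    rw [Complex.mul_conj, Complex.normSq_eq_norm_sq]
  have hL1 : ∑ g, (∑ z ∈ range (p ^ (j - a)), ‖f (c₀ + p ^ a * z) g‖ ^ 2) ^ 2 =
      (Fintype.card G : ℝ)⁻¹ * ∑ χ : AddChar G ℂ, ‖∑ s ∈ range (p ^ (j - a)),
      ft (fun g => f (c₀ + p ^ a * s) g * (starRingEnd ℂ) (f (c₀ + p ^ a * s) g)) χ‖ ^ 2 := by
    have h1 := hP (fun g => ∑ z ∈ range (p ^ (j - a)),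
      f (c₀ + p ^ a * z) g * (starRingEnd ℂ) (f (c₀ + p ^ a * z) g))
    have h2 : ∀ χ, ft (fun g => ∑ z ∈ range (p ^ (j - a)),
      f (c₀ + p ^ a * z) g * (starRingEnd ℂ) (f (c₀ + p ^ a * z) g)) χ =
      ∑ s ∈ range (p ^ (j - a)),
      ft (fun g => f (c₀ + p ^ a * s) g * (starRingEnd ℂ) (f (c₀ + p ^ a * s) g)) χ :=
      fun χ => hS ℕ _ (fun z g => f (c₀ + p ^ a * z) g *
        (starRingEnd ℂ) (f (c₀ + p ^ a * z) g)) χ
    simp only [h2] at h1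
    rw [← h1]
    refine Finset.sum_congr rfl fun g _ => ?_
    have h3 : ∑ z ∈ range (p ^ (j - a)),
        f (c₀ + p ^ a * z) g * (starRingEnd ℂ) (f (c₀ + p ^ a * z) g) =
        ((∑ z ∈ range (p ^ (j - a)), ‖f (c₀ + p ^ a * z) g‖ ^ 2 : ℝ) : ℂ) := by
      rw [Complex.ofReal_sum]
      exact Finset.sum_congr rfl fun z _ => (hcast _ g).symm
    rw [h3, Complex.norm_real, Real.norm_eq_abs, sq_abs]
  have hR1 : ∀ l y : ℕ, ∑ g, (AA p L j l u0 u1 u2 ((c₀ + p ^ a * y : ℕ) : ℤ)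
      (fun g => ∑ z ∈ range (p ^ (j - l)), ‖f (c₀ + p ^ a * y + p ^ l * z) g‖ ^ 2) g) ^ 2 =
      (Fintype.card G : ℝ)⁻¹ * ∑ χ : AddChar G ℂ,
        ‖ft (AA p L j l u0 u1 u2 ((c₀ + p ^ a * y : ℕ) : ℤ)
          (fun g => ∑ z ∈ range (p ^ (j - l)), f (c₀ + p ^ a * y + p ^ l * z) g *
            (starRingEnd ℂ) (f (c₀ + p ^ a * y + p ^ l * z) g))) χ‖ ^ 2 := by
    intro l y
    rw [← hP]
    refine Finset.sum_congr rfl fun g _ => ?_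
    have h1 := (hAV p L j l ((c₀ + p ^ a * y : ℕ) : ℤ) G u0 u1 u2 hp.one_lt).2.2.2.2.2
      (fun g => ∑ z ∈ range (p ^ (j - l)), ‖f (c₀ + p ^ a * y + p ^ l * z) g‖ ^ 2) g
    have h2 : (fun g => ∑ z ∈ range (p ^ (j - l)), f (c₀ + p ^ a * y + p ^ l * z) g *
            (starRingEnd ℂ) (f (c₀ + p ^ a * y + p ^ l * z) g)) =
        (fun g => ((∑ z ∈ range (p ^ (j - l)),
          ‖f (c₀ + p ^ a * y + p ^ l * z) g‖ ^ 2 : ℝ) : ℂ)) := by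
      funext g
      rw [Complex.ofReal_sum]
      exact Finset.sum_congr rfl fun z _ => (hcast _ g).symm
    rw [h2, h1, Complex.norm_real, Real.norm_eq_abs, sq_abs]
  rw [hL1]
  simp only [hR1]
  have hmain : ∑ χ : AddChar G ℂ, ‖∑ s ∈ range (p ^ (j - a)),
      ft (fun g => f (c₀ + p ^ a * s) g * (starRingEnd ℂ) (f (c₀ + p ^ a * s) g)) χ‖ ^ 2 ≤
      ∑ χ : AddChar G ℂ, 2 * ∑ l ∈ Icc a j, ∑ y ∈ range (p ^ (l - a)),
        ‖ft (AA p L j l u0 u1 u2 ((c₀ + p ^ a * y : ℕ) : ℤ)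
          (fun g => ∑ z ∈ range (p ^ (j - l)), f (c₀ + p ^ a * y + p ^ l * z) g *
            (starRingEnd ℂ) (f (c₀ + p ^ a * y + p ^ l * z) g))) χ‖ ^ 2 :=
    Finset.sum_le_sum fun χ _ => one hFT hFP hN2 hN5 hN6 hAF p L j a c₀ ε G u0 u1 u2 f hp hp2
      hL hjL haj hc hf χ
  refine (mul_le_mul_of_nonneg_left hmain (by positivity)).trans (le_of_eq ?_)
  rw [← Finset.mul_sum, Finset.sum_comm, Finset.mul_sum, Finset.mul_sum, Finset.mul_sum]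
  refine Finset.sum_congr rfl fun l _ => ?_
  rw [Finset.sum_comm, Finset.mul_sum, Finset.mul_sum, Finset.mul_sum]
  refine Finset.sum_congr rfl fun y _ => ?_
  ring

end Pool.Agent.H79.VQ
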